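import Pool.Agent.H4.FD.Conj

set_option autoImplicit false

/-!
Step (4): if `g` is an inner mapping which commutes with `D b * g * D b` and `(R b)⁻¹ * g * R b`,
then `w = R (g b)⁻¹ * R b` commutes with `D q * w * D q` for all `q`.
-/

namespace ALoop

open Equiv

variable {Q : Type*} {G : Subgroup (Perm Q)} {L : Q → Perm Q} {J : Perm Q} {e : Q}

/-- a pure group fact: if `(w⁻¹ d)² = w⁻² d²` then `w` and `d` commute -/
theorem o2_comm_of_hom {M : Type*} [Group M] {w d : M}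
    (h : (w⁻¹ * d) * (w⁻¹ * d) = (w⁻¹ * w⁻¹) * (d * d)) : w * d = d * w := by
  have h1 : d * w⁻¹ = w⁻¹ * d := by
    have h2 : w⁻¹ * (d * w⁻¹) * d = w⁻¹ * (w⁻¹ * d) * d := by
      calc w⁻¹ * (d * w⁻¹) * d = (w⁻¹ * d) * (w⁻¹ * d) := by group
        _ = (w⁻¹ * w⁻¹) * (d * d) := h
        _ = w⁻¹ * (w⁻¹ * d) * d := by group
    exact mul_left_cancel (mul_right_cancel h2)
  calc w * d = w * (d * w⁻¹) * w := by group
    _ = d * w := by rw [h1]; group

namespace AL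

/-- the right translation: `R (g b) = g * R b * g⁻¹` -/
theorem o2_R_conj (h : AL G L J e) {g : Perm Q} (hg : g ∈ G) (hge : g e = e) (b : Q) :
    J * L (J (g b)) * J = g * (J * L (J b) * J) * g⁻¹ := by
  have hJ := h.comJ g hg hge
  have h1 : J (g b) = g (J b) := by
    have := congrArg (fun p : Perm Q => p b) hJ
    simp only [Perm.mul_apply] at this
    exact this.symm
  have h2 := h.equi g hg hge (J b)
  have h3 : g⁻¹ * J = J * g⁻¹ := by
    calc g⁻¹ * J = g⁻¹ * (J * g) * g⁻¹ := by group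
      _ = g⁻¹ * (g * J) * g⁻¹ := by rw [hJ]
      _ = J * g⁻¹ := by group
  rw [h1, ← h2]
  calc J * (g * L (J b) * g⁻¹) * J = (J * g) * L (J b) * (g⁻¹ * J) := by group
    _ = (g * J) * L (J b) * (J * g⁻¹) := by rw [h3, hJ]
    _ = g * (J * L (J b) * J) * g⁻¹ := by group

/-- `R b` conjugates `D q` to `D (q b)` -/
theorem o2_R_D (h : AL G L J e) (b q : Q) :
    (J * L (J b) * J) * D L J q * (J * L (J b) * J)⁻¹ = D L J (L q b) := by
  have h1 := h.D_conj (h.memR b) q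
  rw [h1]
  congr 1
  show J (L (J b) (J q)) = L q b
  rw [h.aaip, h.JJ, h.JJ]

/-- step (4) -/
theorem w_comm (h : AL G L J e) {b : Q} {g : Perm Q} (hg : g ∈ G) (hge : g e = e)
    (h1 : g * (D L J b * g * D L J b) = (D L J b * g * D L J b) * g)
    (h2 : g * ((J * L (J b) * J)⁻¹ * g * (J * L (J b) * J)) =
      ((J * L (J b) * J)⁻¹ * g * (J * L (J b) * J)) * g) {w : Perm Q}
    (hw : w = g * (J * L (J b) * J)⁻¹ * g⁻¹ * (J * L (J b) * J)) (q : Q) :
    w * (D L J q * w * D L J q) = (D L J q * w * D L J q) * w := by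
  set R := J * L (J b) * J with hR
  have hDD := h.D_sq b
  have hDq := h.D_sq q
  -- general formula
  have key : ∀ k : Perm Q, k ∈ G → k e = e →
      L q * (k * D L J b * k⁻¹ * D L J b) * (L q)⁻¹ =
        R * ((R⁻¹ * k * R * k⁻¹) * D L J q * (R⁻¹ * k * R * k⁻¹)⁻¹ * D L J q) * R⁻¹ := by
    intro k hk hke
    have e1 : k * D L J b * k⁻¹ = D L J (k b) := h.D_conj hk b
    have e2 : L q * D L J (k b) * (L q)⁻¹ = D L J (L q (k b)) := h.D_conj (h.memL q) _
    have e3 : L q * D L J b * (L q)⁻¹ = D L J (L q b) := h.D_conj (h.memL q) _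
    have e4 := h.o2_R_D (k b) q
    have e5 := h.o2_R_D b q
    rw [h.o2_R_conj hk hke b, ← hR] at e4
    rw [← hR] at e5
    calc L q * (k * D L J b * k⁻¹ * D L J b) * (L q)⁻¹
        = (L q * D L J (k b) * (L q)⁻¹) * (L q * D L J b * (L q)⁻¹) := by rw [e1]; group
      _ = (k * R * k⁻¹ * D L J q * (k * R * k⁻¹)⁻¹) * (R * D L J q * R⁻¹) := by
          rw [e2, e3, ← e4, ← e5]
      _ = R * ((R⁻¹ * k * R * k⁻¹) * D L J q * (R⁻¹ * k * R * k⁻¹)⁻¹ * D L J q) * R⁻¹ := by group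
  have k1 := key g hg hge
  have k2 := key (g * g) (G.mul_mem hg hg) (by show g (g e) = e; rw [hge, hge])
  -- `s = g * D b * g⁻¹ * D b`, `s * s = g² * D b * g⁻² * D b`
  have hs : (g * g) * D L J b * (g * g)⁻¹ * D L J b =
      (g * D L J b * g⁻¹ * D L J b) * (g * D L J b * g⁻¹ * D L J b) := by
    have h3 : (D L J b * g⁻¹ * D L J b) * g = g * (D L J b * g⁻¹ * D L J b) := by
      have hi : (D L J b * g * D L J b)⁻¹ = D L J b * g⁻¹ * D L J b := by
        have hd : (D L J b)⁻¹ = D L J b := inv_eq_of_mul_eq_one_left hDD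
        rw [mul_inv_rev, mul_inv_rev, hd]; group
      have : (D L J b * g * D L J b)⁻¹ * g = g * (D L J b * g * D L J b)⁻¹ := by
        calc (D L J b * g * D L J b)⁻¹ * g
            = (D L J b * g * D L J b)⁻¹ * (g * (D L J b * g * D L J b)) *
              (D L J b * g * D L J b)⁻¹ := by group
          _ = (D L J b * g * D L J b)⁻¹ * ((D L J b * g * D L J b) * g) *
              (D L J b * g * D L J b)⁻¹ := by rw [h1]
          _ = g * (D L J b * g * D L J b)⁻¹ := by group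
      rwa [hi] at this
    calc (g * g) * D L J b * (g * g)⁻¹ * D L J b
        = g * (g * (D L J b * g⁻¹ * 1 * g⁻¹ * D L J b)) := by group
      _ = g * (g * (D L J b * g⁻¹ * (D L J b * D L J b) * g⁻¹ * D L J b)) := by rw [hDD]
      _ = g * (g * (D L J b * g⁻¹ * D L J b)) * (D L J b * g⁻¹ * D L J b) := by group
      _ = g * ((D L J b * g⁻¹ * D L J b) * g) * (D L J b * g⁻¹ * D L J b) := by rw [h3]
      _ = (g * D L J b * g⁻¹ * D L J b) * (g * D L J b * g⁻¹ * D L J b) := by group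
  -- `R⁻¹ * g * R * g⁻¹ = w⁻¹`
  have hwi : R⁻¹ * g * R * g⁻¹ = w⁻¹ := by rw [hw]; group
  have hwi2 : R⁻¹ * (g * g) * R * (g * g)⁻¹ = w⁻¹ * w⁻¹ := by
    calc R⁻¹ * (g * g) * R * (g * g)⁻¹
        = (R⁻¹ * g * R) * ((R⁻¹ * g * R) * g⁻¹) * g⁻¹ := by group
      _ = (R⁻¹ * g * R) * (g⁻¹ * (g * (R⁻¹ * g * R)) * g⁻¹) * g⁻¹ := by group
      _ = (R⁻¹ * g * R) * (g⁻¹ * ((R⁻¹ * g * R) * g) * g⁻¹) * g⁻¹ := by rw [h2]
      _ = (R⁻¹ * g * R * g⁻¹) * (R⁻¹ * g * R * g⁻¹) := by group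
      _ = w⁻¹ * w⁻¹ := by rw [hwi]
  rw [hwi, inv_inv] at k1
  rw [hwi2, hs] at k2
  apply o2_comm_of_hom
  -- square of `k1` equals `k2`
  have e1 : (w⁻¹ * D L J q * w * D L J q) * (w⁻¹ * D L J q * w * D L J q) =
      w⁻¹ * w⁻¹ * D L J q * (w⁻¹ * w⁻¹)⁻¹ * D L J q := by
    have a1 : R * ((w⁻¹ * D L J q * w * D L J q) * (w⁻¹ * D L J q * w * D L J q)) * R⁻¹ =
        R * (w⁻¹ * w⁻¹ * D L J q * (w⁻¹ * w⁻¹)⁻¹ * D L J q) * R⁻¹ := by
      rw [← k2]
      calc R * ((w⁻¹ * D L J q * w * D L J q) * (w⁻¹ * D L J q * w * D L J q)) * R⁻¹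
          = (R * (w⁻¹ * D L J q * w * D L J q) * R⁻¹) *
            (R * (w⁻¹ * D L J q * w * D L J q) * R⁻¹) := by group
        _ = (L q * (g * D L J b * g⁻¹ * D L J b) * (L q)⁻¹) *
            (L q * (g * D L J b * g⁻¹ * D L J b) * (L q)⁻¹) := by rw [← k1]
        _ = _ := by group
    exact mul_left_cancel (mul_right_cancel a1)
  calc w⁻¹ * (D L J q * w * D L J q) * (w⁻¹ * (D L J q * w * D L J q))
      = (w⁻¹ * D L J q * w * D L J q) * (w⁻¹ * D L J q * w * D L J q) := by group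
    _ = w⁻¹ * w⁻¹ * D L J q * (w⁻¹ * w⁻¹)⁻¹ * D L J q := e1
    _ = w⁻¹ * w⁻¹ * (D L J q * w * (1 * (w * D L J q))) := by
        rw [mul_inv_rev, inv_inv, one_mul]; simp only [mul_assoc]
    _ = w⁻¹ * w⁻¹ * (D L J q * w * ((D L J q * D L J q) * (w * D L J q))) := by rw [hDq]
    _ = w⁻¹ * w⁻¹ * ((D L J q * w * D L J q) * (D L J q * w * D L J q)) := by group

end AL

end ALoop
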